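import Pool.Agent.H545R3.CT.Count

/-! Limit transfer from ordered iid pairs to uniform simple graphs with `M` edges. -/

set_option autoImplicit false

namespace Pool.Agent.H545R3.CT

open Finset Filter Pool.Agent.H999R2.KSat Pool.Agent.H320R2.CT

theorem card_Ed (n : ℕ) : Fintype.card (Ed n) = 2 * n.choose 2 := by
  classical
  have h1 : Set.MapsTo (fun e : Ed n => sy e) (univ : Finset (Ed n)) (univ : Finset (Dn n)) :=
    fun _ _ => by simp
  rw [← card_univ, card_eq_sum_card_fiberwise h1, sum_congr rfl (fun d _ => card_fib d),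
    sum_const, smul_eq_mul, mul_comm, card_univ, Sym2.card_subtype_not_diag, Fintype.card_fin]

theorem solC_iff {n q M : ℕ} (F : Fin M → Ed n) [DecidableEq (Dn n)] :
    (SolC F : Set (Co n q)).Nonempty ↔ ColS q (univ.image (fun j => sy (F j))) := by
  constructor
  · rintro ⟨σ, hσ⟩
    refine ⟨σ, fun z hz => ?_⟩
    obtain ⟨j, _, rfl⟩ := mem_image.mp hz
    exact (prD_sy σ (F j)).mpr (hσ j)
  · rintro ⟨σ, hσ⟩
    exact ⟨σ, fun j => (prD_sy σ (F j)).mp (hσ _ (mem_image_of_mem _ (mem_univ j)))⟩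

open Classical in
/-- all tuples without repeated unordered pairs -/
noncomputable def AA (n M : ℕ) : ℕ :=
  (univ.filter (fun F : Fin M → Ed n => Function.Injective (fun j => sy (F j)))).card

open Classical in
/-- the colourable ones -/
noncomputable def BB (n q M : ℕ) : ℕ :=
  (univ.filter (fun F : Fin M → Ed n => Function.Injective (fun j => sy (F j)) ∧
    (SolC F : Set (Co n q)).Nonempty)).card

theorem AA_eq (n M : ℕ) : AA n M = 2 ^ M * (M.factorial *
    Nat.card {G : SimpleGraph (Fin n) // G.edgeSet.ncard = M}) := by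
  classical
  have h := card_tuples (n := n) M (fun _ => True)
  rw [nat_card_all]
  simp only [and_true] at h
  exact h

theorem BB_eq (n q M : ℕ) : BB n q M = 2 ^ M * (M.factorial *
    Nat.card {G : SimpleGraph (Fin n) // G.edgeSet.ncard = M ∧ G.Colorable q}) := by
  classical
  have h := card_tuples (n := n) M (fun S => ColS q S)
  rw [nat_card_col, ← h, BB]
  congr 1
  ext F
  simp only [mem_filter, mem_univ, true_and, solC_iff]

theorem ratio_eq (n q M : ℕ) :
    (Nat.card {G : SimpleGraph (Fin n) // G.edgeSet.ncard = M ∧ G.Colorable q} : ℝ) /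
      (Nat.card {G : SimpleGraph (Fin n) // G.edgeSet.ncard = M} : ℝ) =
      (BB n q M : ℝ) / AA n M := by
  rw [AA_eq, BB_eq]
  push_cast
  have h1 : (2 : ℝ) ^ M ≠ 0 := by positivity
  have h2 : (M.factorial : ℝ) ≠ 0 := by positivity
  rw [mul_div_mul_left _ _ h1, mul_div_mul_left _ _ h2]

theorem AA_desc (n M : ℕ) : AA n M = 2 ^ M * (n.choose 2).descFactorial M := by
  classical
  rw [AA_eq, nat_card_all, Nat.descFactorial_eq_factorial_mul_choose]
  congr 2
  have h : (univ.filter (fun S : Finset (Dn n) => S.card = M)) = powersetCard M univ := by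
    ext S; simp [mem_powersetCard]
  rw [h, card_powersetCard, card_univ, Sym2.card_subtype_not_diag, Fintype.card_fin]

open Classical in
theorem pc_card (n q M : ℕ) : pc n q M * (Fintype.card (Fin M → Ed n) : ℝ) =
    ((univ.filter (fun F : Fin M → Ed n => (SolC F : Set (Co n q)).Nonempty)).card : ℝ) := by
  have h : ∑ F : Fin M → Ed n, ind (SolC F : Set (Co n q)).Nonempty =
      ((univ.filter (fun F : Fin M → Ed n => (SolC F : Set (Co n q)).Nonempty)).card : ℝ) := by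
    unfold ind
    rw [sum_ite]
    simp
  unfold pc E
  rw [h]
  rcases Nat.eq_zero_or_pos (Fintype.card (Fin M → Ed n)) with h0 | h0
  · have : (univ.filter (fun F : Fin M → Ed n => (SolC F : Set (Co n q)).Nonempty)).card = 0 := by
      have h2 : (univ.filter (fun F : Fin M → Ed n =>
          (SolC F : Set (Co n q)).Nonempty)).card ≤ Fintype.card (Fin M → Ed n) := by
        rw [← card_univ]; exact card_le_card (filter_subset _ _)
      omega
    rw [this, h0]; simp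
  · have h1 : (Fintype.card (Fin M → Ed n) : ℝ) ≠ 0 := by exact_mod_cast h0.ne'
    field_simp

theorem BB_le (n q M : ℕ) : (BB n q M : ℝ) ≤ pc n q M * (Fintype.card (Fin M → Ed n) : ℝ) := by
  classical
  rw [pc_card]
  have h : BB n q M ≤ (univ.filter (fun F : Fin M → Ed n =>
      (SolC F : Set (Co n q)).Nonempty)).card := by
    unfold BB
    refine card_le_card ?_
    intro F hF
    simp only [mem_filter, mem_univ, true_and] at hF ⊢
    exact hF.2
  exact_mod_cast h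

theorem AB_le (n q M : ℕ) : (AA n M : ℝ) - BB n q M ≤
    (1 - pc n q M) * (Fintype.card (Fin M → Ed n) : ℝ) := by
  classical
  rw [sub_mul, pc_card, one_mul]
  have h : AA n M + (univ.filter (fun F : Fin M → Ed n =>
      (SolC F : Set (Co n q)).Nonempty)).card ≤ Fintype.card (Fin M → Ed n) + BB n q M := by
    unfold AA BB
    rw [← card_union_add_card_inter]
    refine Nat.add_le_add ?_ ?_
    · rw [← card_univ]; exact card_le_card (subset_univ _)
    · refine card_le_card ?_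
      intro F hF
      simp only [mem_inter, mem_filter, mem_univ, true_and] at hF ⊢
      exact hF
  have h' : (AA n M : ℝ) + ((univ.filter (fun F : Fin M → Ed n =>
      (SolC F : Set (Co n q)).Nonempty)).card : ℝ) ≤
      (Fintype.card (Fin M → Ed n) : ℝ) + BB n q M := by exact_mod_cast h
  linarith

theorem exp_aux (x : ℝ) (h0 : 0 ≤ x) (h1 : x ≤ 1 / 2) : Real.exp (-(2 * x)) ≤ 1 - x := by
  have h2 : 1 + 2 * x ≤ Real.exp (2 * x) := by
    have := Real.add_one_le_exp (2 * x); linarith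
  rw [Real.exp_neg]
  have h3 : (0 : ℝ) < 1 + 2 * x := by linarith
  calc (Real.exp (2 * x))⁻¹ ≤ (1 + 2 * x)⁻¹ := inv_anti₀ h3 h2
    _ ≤ 1 - x := by
      rw [inv_le_iff_one_le_mul₀ h3]
      nlinarith

/-- repeated pairs are absent with probability bounded below -/
theorem AA_lower (Λ : ℝ) (hΛ : 0 ≤ Λ) : ∃ n0 : ℕ, ∀ n M : ℕ, n0 ≤ n → (M : ℝ) ≤ Λ * n →
    Real.exp (-(8 * Λ ^ 2)) * (Fintype.card (Fin M → Ed n) : ℝ) ≤ AA n M := by
  refine ⟨⌈8 * Λ⌉₊ + 2, fun n M hn hM => ?_⟩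
  have hn2 : 2 ≤ n := by omega
  have hn8 : 8 * Λ ≤ n := by
    have h1 : 8 * Λ ≤ (⌈8 * Λ⌉₊ : ℝ) := Nat.le_ceil _
    have h2 : ((⌈8 * Λ⌉₊ + 2 : ℕ) : ℝ) ≤ n := by exact_mod_cast hn
    push_cast at h2
    linarith
  have hnr : (2 : ℝ) ≤ n := by exact_mod_cast hn2
  have hN : ((n.choose 2 : ℕ) : ℝ) = (n : ℝ) * ((n : ℝ) - 1) / 2 := Nat.cast_choose_two ℝ n
  have hN4 : (n : ℝ) ^ 2 / 4 ≤ ((n.choose 2 : ℕ) : ℝ) := by rw [hN]; nlinarith
  have hNpos : 0 < ((n.choose 2 : ℕ) : ℝ) := by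
    have : (0 : ℝ) < (n : ℝ) ^ 2 / 4 := by positivity
    linarith
  have hM0 : (0 : ℝ) ≤ M := by positivity
  set N : ℝ := ((n.choose 2 : ℕ) : ℝ) with hNdef
  have hx0 : 0 ≤ (M : ℝ) / N := by positivity
  have hx1 : (M : ℝ) / N ≤ 1 / 2 := by
    rw [div_le_iff₀ hNpos]
    nlinarith
  have hMN' : (M : ℝ) ≤ N := by
    rw [div_le_iff₀ hNpos] at hx1
    linarith
  have hMN : M ≤ n.choose 2 := by
    rw [hNdef] at hMN'
    exact_mod_cast hMN'
  rw [AA_desc, Fintype.card_fun, card_Ed, Fintype.card_fin]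
  push_cast
  rw [← hNdef, mul_pow]
  have hd : ((n.choose 2 + 1 - M : ℕ) : ℝ) ^ M ≤ ((n.choose 2).descFactorial M : ℝ) := by
    exact_mod_cast Nat.pow_sub_le_descFactorial (n.choose 2) M
  have hsub : N - M ≤ ((n.choose 2 + 1 - M : ℕ) : ℝ) := by
    rw [Nat.cast_sub (by omega)]
    push_cast
    rw [← hNdef]; linarith
  have hNM : 0 ≤ N - M := by linarith
  have h1 : (N - M) ^ M ≤ ((n.choose 2).descFactorial M : ℝ) :=
    le_trans (pow_le_pow_left₀ hNM hsub M) hd
  have h2 : Real.exp (-(8 * Λ ^ 2)) * N ^ M ≤ (N - M) ^ M := by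
    have h3 : N - M = (1 - M / N) * N := by field_simp
    rw [h3, mul_pow]
    refine mul_le_mul_of_nonneg_right ?_ (by positivity)
    have h4 : Real.exp (-(2 * (M / N))) ≤ 1 - M / N := exp_aux _ hx0 hx1
    calc Real.exp (-(8 * Λ ^ 2)) ≤ Real.exp (-(2 * (M / N))) ^ M := by
          rw [← Real.exp_nat_mul]
          refine Real.exp_le_exp.mpr ?_
          have h5 : (M : ℝ) * (M / N) ≤ 4 * Λ ^ 2 := by
            rw [← mul_div_assoc, div_le_iff₀ hNpos]
            have h6 : (M : ℝ) * M ≤ (Λ * n) * (Λ * n) := mul_self_le_mul_self hM0 hM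
            nlinarith [sq_nonneg Λ]
          nlinarith
      _ ≤ (1 - M / N) ^ M := pow_le_pow_left₀ (Real.exp_pos _).le h4 M
  calc Real.exp (-(8 * Λ ^ 2)) * (2 ^ M * N ^ M) =
        2 ^ M * (Real.exp (-(8 * Λ ^ 2)) * N ^ M) := by ring
    _ ≤ 2 ^ M * ((n.choose 2).descFactorial M : ℝ) := by
        refine mul_le_mul_of_nonneg_left (le_trans h2 h1) (by positivity)

theorem pc_nonneg' (n q m : ℕ) : 0 ≤ pc n q m := E_nonneg fun _ => ind_nonneg _
theorem pc_le_one' (n q m : ℕ) : pc n q m ≤ 1 :=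
  E_le_of_nonneg zero_le_one fun _ => ind_le_one _

theorem AA_pos (Λ : ℝ) (n M : ℕ) (hn : 2 ≤ n)
    (h : Real.exp (-(8 * Λ ^ 2)) * (Fintype.card (Fin M → Ed n) : ℝ) ≤ AA n M) :
    (0 : ℝ) < AA n M ∧ (0 : ℝ) < (Fintype.card (Fin M → Ed n) : ℝ) := by
  have h1 : 0 < Fintype.card (Fin M → Ed n) := by
    rw [Fintype.card_fun, card_Ed]
    exact pow_pos (Nat.mul_pos two_pos (Nat.choose_pos hn)) _
  have h2 : (0 : ℝ) < (Fintype.card (Fin M → Ed n) : ℝ) := by exact_mod_cast h1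
  refine ⟨lt_of_lt_of_le ?_ h, h2⟩
  positivity

theorem ratio_le (Λ : ℝ) (n q M : ℕ) (hn : 2 ≤ n)
    (h : Real.exp (-(8 * Λ ^ 2)) * (Fintype.card (Fin M → Ed n) : ℝ) ≤ AA n M) :
    (BB n q M : ℝ) / AA n M ≤ Real.exp (8 * Λ ^ 2) * pc n q M := by
  obtain ⟨hA, hX⟩ := AA_pos Λ n M hn h
  rw [div_le_iff₀ hA]
  have h1 := BB_le n q M
  have h2 := pc_nonneg' n q M
  have h3 : (Fintype.card (Fin M → Ed n) : ℝ) ≤ Real.exp (8 * Λ ^ 2) * AA n M := by
    have h4 := mul_le_mul_of_nonneg_left h (Real.exp_pos (8 * Λ ^ 2)).le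
    rw [← mul_assoc, ← Real.exp_add] at h4
    simpa using h4
  calc (BB n q M : ℝ) ≤ pc n q M * (Fintype.card (Fin M → Ed n) : ℝ) := h1
    _ ≤ pc n q M * (Real.exp (8 * Λ ^ 2) * AA n M) := mul_le_mul_of_nonneg_left h3 h2
    _ = _ := by ring

theorem ratio_ge (Λ : ℝ) (n q M : ℕ) (hn : 2 ≤ n)
    (h : Real.exp (-(8 * Λ ^ 2)) * (Fintype.card (Fin M → Ed n) : ℝ) ≤ AA n M) :
    1 - Real.exp (8 * Λ ^ 2) * (1 - pc n q M) ≤ (BB n q M : ℝ) / AA n M := by
  obtain ⟨hA, hX⟩ := AA_pos Λ n M hn h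
  rw [le_div_iff₀ hA]
  have h1 := AB_le n q M
  have h2 := pc_le_one' n q M
  have h3 : (Fintype.card (Fin M → Ed n) : ℝ) ≤ Real.exp (8 * Λ ^ 2) * AA n M := by
    have h4 := mul_le_mul_of_nonneg_left h (Real.exp_pos (8 * Λ ^ 2)).le
    rw [← mul_assoc, ← Real.exp_add] at h4
    simpa using h4
  have h5 : (1 - pc n q M) * (Fintype.card (Fin M → Ed n) : ℝ) ≤
      (1 - pc n q M) * (Real.exp (8 * Λ ^ 2) * AA n M) :=
    mul_le_mul_of_nonneg_left h3 (by linarith)
  nlinarith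

theorem ratio_le_one (Λ : ℝ) (n q M : ℕ) (hn : 2 ≤ n)
    (h : Real.exp (-(8 * Λ ^ 2)) * (Fintype.card (Fin M → Ed n) : ℝ) ≤ AA n M) :
    (BB n q M : ℝ) / AA n M ≤ 1 := by
  classical
  obtain ⟨hA, hX⟩ := AA_pos Λ n M hn h
  rw [div_le_one hA]
  have : BB n q M ≤ AA n M := by
    unfold AA BB
    refine card_le_card ?_
    intro F hF
    simp only [mem_filter, mem_univ, true_and] at hF ⊢
    exact hF.1
  exact_mod_cast this

theorem floor_le_max (r : ℝ) (n : ℕ) : (⌊r * (n : ℝ)⌋₊ : ℝ) ≤ max r 0 * n := by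
  rcases le_total 0 r with h | h
  · rw [max_eq_left h]
    exact Nat.floor_le (by positivity)
  · have h1 : r * (n : ℝ) ≤ 0 := mul_nonpos_of_nonpos_of_nonneg h (by positivity)
    rw [Nat.floor_of_nonpos h1, max_eq_right h]; simp

theorem limit_one (q : ℕ) (r : ℝ)
    (h1 : Tendsto (fun n : ℕ => pc n q ⌊r * (n : ℝ)⌋₊) atTop (nhds 1)) :
    Tendsto (fun n : ℕ => (BB n q ⌊r * (n : ℝ)⌋₊ : ℝ) / AA n ⌊r * (n : ℝ)⌋₊) atTop (nhds 1) := by
  set Λ := max r 0 with hΛ
  obtain ⟨n0, hn0⟩ := AA_lower Λ (le_max_right _ _)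
  have hlow : Tendsto (fun n : ℕ => 1 - Real.exp (8 * Λ ^ 2) * (1 - pc n q ⌊r * (n : ℝ)⌋₊))
      atTop (nhds 1) := by
    have h2 := (h1.const_sub 1).const_mul (Real.exp (8 * Λ ^ 2))
    have h3 := h2.const_sub 1
    simpa using h3
  refine tendsto_of_tendsto_of_tendsto_of_le_of_le' hlow tendsto_const_nhds ?_ ?_
  · filter_upwards [eventually_ge_atTop (max n0 2)] with n hn
    have ha : n0 ≤ n := le_trans (le_max_left _ _) hn
    have hb : 2 ≤ n := le_trans (le_max_right _ _) hn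
    exact ratio_ge Λ n q _ hb (hn0 n _ ha (floor_le_max r n))
  · filter_upwards [eventually_ge_atTop (max n0 2)] with n hn
    have ha : n0 ≤ n := le_trans (le_max_left _ _) hn
    have hb : 2 ≤ n := le_trans (le_max_right _ _) hn
    exact ratio_le_one Λ n q _ hb (hn0 n _ ha (floor_le_max r n))

theorem limit_zero (q : ℕ) (r : ℝ)
    (h1 : Tendsto (fun n : ℕ => pc n q ⌊r * (n : ℝ)⌋₊) atTop (nhds 0)) :
    Tendsto (fun n : ℕ => (BB n q ⌊r * (n : ℝ)⌋₊ : ℝ) / AA n ⌊r * (n : ℝ)⌋₊) atTop (nhds 0) := by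
  set Λ := max r 0 with hΛ
  obtain ⟨n0, hn0⟩ := AA_lower Λ (le_max_right _ _)
  have hup : Tendsto (fun n : ℕ => Real.exp (8 * Λ ^ 2) * pc n q ⌊r * (n : ℝ)⌋₊)
      atTop (nhds 0) := by
    have h2 := h1.const_mul (Real.exp (8 * Λ ^ 2))
    simpa using h2
  refine tendsto_of_tendsto_of_tendsto_of_le_of_le' tendsto_const_nhds hup ?_ ?_
  · filter_upwards with n
    positivity
  · filter_upwards [eventually_ge_atTop (max n0 2)] with n hn
    have ha : n0 ≤ n := le_trans (le_max_left _ _) hn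
    have hb : 2 ≤ n := le_trans (le_max_right _ _) hn
    exact ratio_le Λ n q _ hb (hn0 n _ ha (floor_le_max r n))

/-- limit transfer to uniform simple graphs -/
theorem transfer (q : ℕ) (rs : ℝ)
    (h1 : ∀ r, r < rs → Tendsto (fun n : ℕ => pc n q ⌊r * (n : ℝ)⌋₊) atTop (nhds 1))
    (h0 : ∀ r, rs < r → Tendsto (fun n : ℕ => pc n q ⌊r * (n : ℝ)⌋₊) atTop (nhds 0)) :
    ∀ ε : ℝ, 0 < ε →
      Filter.Tendsto
        (fun n : ℕ =>
          (Nat.card {G : SimpleGraph (Fin n) //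
              G.edgeSet.ncard = ⌊(rs - ε) * (n : ℝ)⌋₊ ∧ G.Colorable q} : ℝ) /
          (Nat.card {G : SimpleGraph (Fin n) //
              G.edgeSet.ncard = ⌊(rs - ε) * (n : ℝ)⌋₊} : ℝ))
        Filter.atTop (nhds 1) ∧
      Filter.Tendsto
        (fun n : ℕ =>
          (Nat.card {G : SimpleGraph (Fin n) //
              G.edgeSet.ncard = ⌊(rs + ε) * (n : ℝ)⌋₊ ∧ G.Colorable q} : ℝ) /
          (Nat.card {G : SimpleGraph (Fin n) //
              G.edgeSet.ncard = ⌊(rs + ε) * (n : ℝ)⌋₊} : ℝ))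
        Filter.atTop (nhds 0) := by
  intro ε hε
  constructor
  · simp_rw [ratio_eq]
    exact limit_one q _ (h1 _ (by linarith))
  · simp_rw [ratio_eq]
    exact limit_zero q _ (h0 _ (by linarith))

end Pool.Agent.H545R3.CT
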