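import Pool.Agent.H320R2.CT.Defs

/-! Counting: ordered tuples of ordered pairs versus simple graphs with `M` edges. -/

set_option autoImplicit false

namespace Pool.Agent.H545R3.CT

open Finset Pool.Agent.H999R2.KSat Pool.Agent.H320R2.CT

/-- non-loop unordered pairs -/
abbrev Dn (n : ℕ) := {z : Sym2 (Fin n) // ¬ z.IsDiag}

/-- the unordered pair of an ordered pair -/
def sy {n : ℕ} (e : Ed n) : Dn n := ⟨s(e.1.1, e.1.2), by simpa using e.2⟩

/-- the colouring `σ` is proper on the unordered pair `z` -/
def prD {n q : ℕ} (σ : Co n q) (z : Dn n) : Prop := ¬ (Sym2.map σ z.1).IsDiag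

theorem prD_sy {n q : ℕ} (σ : Co n q) (e : Ed n) : prD σ (sy e) ↔ pr σ e := by
  simp [prD, sy, pr]

/-- the set `S` of unordered pairs is `q`-colourable -/
def ColS {n : ℕ} (q : ℕ) (S : Finset (Dn n)) : Prop := ∃ σ : Co n q, ∀ z ∈ S, prD σ z

open Classical in
theorem card_fib {n : ℕ} (d : Dn n) : (univ.filter (fun e : Ed n => sy e = d)).card = 2 := by
  obtain ⟨z, hz⟩ := d
  induction z using Sym2.ind with
  | _ a b =>
    have hab : a ≠ b := by simpa using hz
    have h : univ.filter (fun e : Ed n => sy e = ⟨s(a, b), hz⟩) =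
        {⟨(a, b), hab⟩, ⟨(b, a), hab.symm⟩} := by
      ext ⟨⟨x, y⟩, hxy⟩
      simp [sy, Prod.ext_iff]
    rw [h, card_pair]
    intro h2
    have h3 := congrArg (fun e : Ed n => e.1.1) h2
    exact hab h3

open Classical in
theorem card_lift {n M : ℕ} (g : Fin M → Dn n) :
    (univ.filter (fun F : Fin M → Ed n => (fun j => sy (F j)) = g)).card = 2 ^ M := by
  have h : univ.filter (fun F : Fin M → Ed n => (fun j => sy (F j)) = g) =
      Fintype.piFinset (fun j => univ.filter (fun e : Ed n => sy e = g j)) := by
    ext F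
    simp [funext_iff, Fintype.mem_piFinset]
  rw [h, Fintype.card_piFinset, prod_congr rfl (fun j _ => card_fib (g j))]
  simp

theorem card_inj_image {α : Type} [Fintype α] [DecidableEq α] (M : ℕ) (S : Finset α)
    (hS : S.card = M) [DecidablePred (fun g : Fin M → α =>
      Function.Injective g ∧ univ.image g = S)] :
    (univ.filter (fun g : Fin M → α => Function.Injective g ∧ univ.image g = S)).card =
      M.factorial := by
  rw [← Fintype.card_subtype]
  have e : {g : Fin M → α // Function.Injective g ∧ univ.image g = S} ≃ (Fin M ≃ S) :=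
    { toFun := fun g => Equiv.ofBijective
        (fun j => (⟨g.1 j, g.2.2.subset (mem_image_of_mem _ (mem_univ _))⟩ : S))
        ⟨fun a b h => g.2.1 (congrArg Subtype.val h), fun s => by
          have h1 : s.1 ∈ univ.image g.1 := by rw [g.2.2]; exact s.2
          obtain ⟨j, _, hj⟩ := mem_image.mp h1
          exact ⟨j, Subtype.ext hj⟩⟩
      invFun := fun e => ⟨fun j => (e j).1, fun a b h => e.injective (Subtype.ext h), by
        ext x
        simp only [mem_image, mem_univ, true_and]
        constructor
        · rintro ⟨j, rfl⟩; exact (e j).2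
        · intro hx; exact ⟨e.symm ⟨x, hx⟩, by simp⟩⟩
      left_inv := fun g => by ext; rfl
      right_inv := fun e => by ext; rfl }
  rw [Fintype.card_congr e]
  have e0 : Fin M ≃ S := Fintype.equivOfCardEq (by simp [hS])
  rw [Fintype.card_equiv e0, Fintype.card_fin]

open Classical in
/-- tuples with pairwise different unordered pairs versus sets of unordered pairs -/
theorem card_tuples {n : ℕ} (M : ℕ) (P : Finset (Dn n) → Prop) :
    (univ.filter (fun F : Fin M → Ed n => Function.Injective (fun j => sy (F j)) ∧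
      P (univ.image (fun j => sy (F j))))).card =
    2 ^ M * (M.factorial * (univ.filter (fun S : Finset (Dn n) => S.card = M ∧ P S)).card) := by
  have h1 : Set.MapsTo (fun (F : Fin M → Ed n) (j : Fin M) => sy (F j))
      (univ.filter (fun F : Fin M → Ed n => Function.Injective (fun j => sy (F j)) ∧
        P (univ.image (fun j => sy (F j)))) : Finset (Fin M → Ed n))
      (univ.filter (fun g : Fin M → Dn n => Function.Injective g ∧ P (univ.image g)) :
        Finset (Fin M → Dn n)) := by
    intro F hF
    simpa using hF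
  rw [card_eq_sum_card_fiberwise h1]
  have h2 : ∀ g ∈ univ.filter (fun g : Fin M → Dn n => Function.Injective g ∧ P (univ.image g)),
      (filter (fun F : Fin M → Ed n => (fun j => sy (F j)) = g)
        (univ.filter (fun F : Fin M → Ed n => Function.Injective (fun j => sy (F j)) ∧
          P (univ.image (fun j => sy (F j)))))).card = 2 ^ M := by
    intro g hg
    rw [← card_lift g]
    congr 1
    ext F
    simp only [mem_filter, mem_univ, true_and]
    constructor
    · rintro ⟨_, h⟩; exact h
    · intro h
      refine ⟨?_, h⟩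
      simp only [mem_filter, mem_univ, true_and] at hg
      have h3 : (fun j => sy (F j)) = g := h
      rw [h3]
      exact hg
  rw [sum_congr rfl h2, sum_const, smul_eq_mul, mul_comm]
  congr 1
  have h4 : Set.MapsTo (fun g : Fin M → Dn n => univ.image g)
      (univ.filter (fun g : Fin M → Dn n => Function.Injective g ∧ P (univ.image g)) :
        Finset (Fin M → Dn n))
      (univ.filter (fun S : Finset (Dn n) => S.card = M ∧ P S) : Finset (Finset (Dn n))) := by
    intro g hg
    simp only [coe_filter, mem_univ, true_and, Set.mem_ofPred_eq] at hg ⊢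
    exact ⟨by rw [card_image_of_injective _ hg.1]; simp, hg.2⟩
  rw [card_eq_sum_card_fiberwise h4]
  have h5 : ∀ S ∈ univ.filter (fun S : Finset (Dn n) => S.card = M ∧ P S),
      (filter (fun g : Fin M → Dn n => univ.image g = S)
        (univ.filter (fun g : Fin M → Dn n => Function.Injective g ∧ P (univ.image g)))).card =
        M.factorial := by
    intro S hS
    simp only [mem_filter, mem_univ, true_and] at hS
    rw [← card_inj_image M S hS.1]
    congr 1
    ext g
    simp only [mem_filter, mem_univ, true_and]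
    constructor
    · rintro ⟨⟨h, _⟩, h'⟩; exact ⟨h, h'⟩
    · rintro ⟨h, h'⟩
      exact ⟨⟨h, by rw [h']; exact hS.2⟩, h'⟩
  rw [sum_congr rfl h5, sum_const, smul_eq_mul, mul_comm]

open Classical in
/-- graphs as sets of unordered pairs -/
noncomputable def grEquiv (n : ℕ) : Finset (Dn n) ≃ SimpleGraph (Fin n) where
  toFun S := SimpleGraph.fromEdgeSet (Subtype.val '' (S : Set (Dn n)))
  invFun G := univ.filter (fun z : Dn n => z.1 ∈ G.edgeSet)
  left_inv S := by
    ext z
    simp only [SimpleGraph.edgeSet_fromEdgeSet, mem_filter, mem_univ, true_and, Set.mem_sdiff,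
      Set.mem_image, mem_coe]
    constructor
    · rintro ⟨⟨w, hw, h⟩, _⟩
      rwa [← Subtype.ext h]
    · intro h
      exact ⟨⟨z, h, rfl⟩, z.2⟩
  right_inv G := by
    rw [← SimpleGraph.edgeSet_inj, SimpleGraph.edgeSet_fromEdgeSet]
    ext z
    simp only [coe_filter, mem_univ, true_and, Set.mem_sdiff, Set.mem_image, Set.mem_ofPred_eq]
    constructor
    · rintro ⟨⟨w, hw, rfl⟩, _⟩
      exact hw
    · intro h
      exact ⟨⟨⟨z, G.not_isDiag_of_mem_edgeSet h⟩, h, rfl⟩, G.not_isDiag_of_mem_edgeSet h⟩

theorem gr_ncard {n : ℕ} (S : Finset (Dn n)) : (grEquiv n S).edgeSet.ncard = S.card := by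
  have h : (grEquiv n S).edgeSet = Subtype.val '' (S : Set (Dn n)) := by
    show (SimpleGraph.fromEdgeSet (Subtype.val '' (S : Set (Dn n)))).edgeSet = _
    rw [SimpleGraph.edgeSet_fromEdgeSet]
    ext z
    constructor
    · intro h; exact h.1
    · rintro ⟨w, hw, rfl⟩
      exact ⟨⟨w, hw, rfl⟩, w.2⟩
  rw [h, Set.ncard_image_of_injective _ Subtype.val_injective, Set.ncard_coe_finset]

theorem gr_col {n : ℕ} (q : ℕ) (S : Finset (Dn n)) : (grEquiv n S).Colorable q ↔ ColS q S := by
  constructor
  · rintro ⟨C⟩
    refine ⟨fun v => C v, fun z hz => ?_⟩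
    obtain ⟨z, hz'⟩ := z
    induction z using Sym2.ind with
    | _ a b =>
      have hab : a ≠ b := by simpa using hz'
      have hadj : (grEquiv n S).Adj a b := by
        show (SimpleGraph.fromEdgeSet (Subtype.val '' (S : Set (Dn n)))).Adj a b
        rw [SimpleGraph.fromEdgeSet_adj]
        exact ⟨⟨_, hz, rfl⟩, hab⟩
      have := C.valid hadj
      simpa [prD] using this
  · rintro ⟨σ, hσ⟩
    refine ⟨SimpleGraph.Coloring.mk σ ?_⟩
    intro v w hadj
    have h1 : (SimpleGraph.fromEdgeSet (Subtype.val '' (S : Set (Dn n)))).Adj v w := hadj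
    rw [SimpleGraph.fromEdgeSet_adj] at h1
    obtain ⟨⟨z, hz, h2⟩, hvw⟩ := h1
    have h3 := hσ z hz
    unfold prD at h3
    rw [h2] at h3
    simpa using h3

open Classical in
theorem nat_card_col (n q M : ℕ) :
    Nat.card {G : SimpleGraph (Fin n) // G.edgeSet.ncard = M ∧ G.Colorable q} =
      (univ.filter (fun S : Finset (Dn n) => S.card = M ∧ ColS q S)).card := by
  rw [← Fintype.card_subtype, ← Nat.card_eq_fintype_card]
  refine (Nat.card_congr ((grEquiv n).subtypeEquiv ?_)).symm
  intro S
  rw [gr_ncard, gr_col]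

open Classical in
theorem nat_card_all (n M : ℕ) :
    Nat.card {G : SimpleGraph (Fin n) // G.edgeSet.ncard = M} =
      (univ.filter (fun S : Finset (Dn n) => S.card = M)).card := by
  rw [← Fintype.card_subtype, ← Nat.card_eq_fintype_card]
  refine (Nat.card_congr ((grEquiv n).subtypeEquiv ?_)).symm
  intro S
  rw [gr_ncard]

end Pool.Agent.H545R3.CT
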